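import Mathlib
import Pool.Agent.W537.PC.Defs

/-!
# Products of values of the gamma function at rational points, and periods of CM types
-/

namespace Pool.Agent.TH127.GA

open NumberField Pool.Agent.W547.KB Pool.Agent.W537.PC

noncomputable section

/-- The theorem of Wüstholz on the linear independence of periods, for two periods of abelian
varieties of CM type: if the quotient of the periods belonging to `φ` and `φ'` is algebraic, then an
automorphism of the complex numbers maps `φ` into the CM type if and only if it maps `φ'` into the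
other CM type (so that both are periods of the same eigenform on the same simple abelian
variety). -/
def Wuestholz (P : PeriodSystem) : Prop :=
  ∀ (A A' : CMPair) (φ : A.E →+* ℂ) (φ' : A'.E →+* ℂ),
    IsAlgebraic ℚ (P.θ A φ / P.θ A' φ') → ∀ τ : ℂ ≃+* ℂ,
      (τ : ℂ →+* ℂ).comp φ ∈ A.Φ ↔ (τ : ℂ →+* ℂ).comp φ' ∈ A'.Φ

/-- The periods of the Fermat curves. Let `E` be the field generated by the primitive `D`-th root of
unity `ζ`, and let the CM type consist of the embeddings `φ` with `φ ζ = exp (2 π i u / D)` such that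
`{u a / D} + {u b / D} < 1` (where `a`, `b`, `a + b` are not divisible by `D`). The abelian variety of
this type is a factor of the Jacobian of the Fermat curve of degree `D`, and the period belonging to
`φ` is an algebraic multiple of the beta value `B ({u a / D}, {u b / D})`. -/
def FermatPeriods (P : PeriodSystem) : Prop :=
  ∀ (D : ℕ) [NeZero D] (a b : ZMod D) (A : CMPair) (ζ : A.E), a ≠ 0 → b ≠ 0 → a + b ≠ 0 →
    IsPrimitiveRoot ζ D → Algebra.adjoin ℚ {ζ} = ⊤ →
    (∀ (φ : A.E →+* ℂ) (u : ZMod D), φ ζ = ZMod.stdAddChar u →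
      (φ ∈ A.Φ ↔ (u * a).val + (u * b).val < D)) →
    ∀ (φ : A.E →+* ℂ) (u : ZMod D), φ ζ = ZMod.stdAddChar u →
      IsAlgebraic ℚ (P.θ A φ /
        Complex.betaIntegral (((u * a).val : ℂ) / D) (((u * b).val : ℂ) / D))

variable {r : ℕ}

/-- The product `Γ (a 1) ⋯ Γ (a r)` is an algebraic multiple of `π ^ (r / 2)`. -/
def AlgebraicMultiple (a : Fin r → ℚ) : Prop :=
  ∃ α : ℝ, IsAlgebraic ℚ α ∧
    ∏ i : Fin r, Real.Gamma ((a i : ℚ) : ℝ) = α * Real.pi ^ ((r : ℝ) / 2)

/-- The function `t ↦ ∑ ({t m a i} - 1 / 2)` on the integers prime to `D`. -/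
def excessFun (D : ℕ) (a : Fin r → ℚ) (m : ℕ) (t : {t : ℕ // t.Coprime D}) : ℚ :=
  ∑ i : Fin r, (Int.fract (((t.1 * m : ℕ) : ℚ) * a i) - 1 / 2)

/-- The space of functions spanned by the functions `excessFun D a m`, for the integers `m` prime
to `D` for which `Γ (m a 1) ⋯ Γ (m a r)` is an algebraic multiple of `π ^ (r / 2)`. -/
def algebraicSpan (D : ℕ) (a : Fin r → ℚ) : Submodule ℚ ({t : ℕ // t.Coprime D} → ℚ) :=
  Submodule.span ℚ {f | ∃ m : ℕ, m.Coprime D ∧ AlgebraicMultiple (fun i => (m : ℚ) * a i) ∧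
    f = excessFun D a m}

end

end Pool.Agent.TH127.GA
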