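import Mathlib
import Pool.Agent.W527.VPeriod

/-!
# Values of the gamma function modulo algebraic numbers
-/

set_option linter.unusedSectionVars false
set_option linter.unusedVariables false

namespace Pool.Agent.TH127.GA

open Pool.Agent.W527.Vec

noncomputable section

theorem lg_alg {z : ℂ} (hz : z ≠ 0) (h : IsAlgebraic ℚ z) : lg z = 0 :=
  (lg_eq_zero hz).2 (mem_algebraicClosure_iff.2 h)

theorem alg_of_lg {z : ℂ} (hz : z ≠ 0) (h : lg z = 0) : IsAlgebraic ℚ z :=
  mem_algebraicClosure_iff.1 ((lg_eq_zero hz).1 h)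

theorem alg_rat (q : ℚ) : IsAlgebraic ℚ (q : ℂ) := by
  have h : (q : ℂ) = algebraMap ℚ ℂ q := (eq_ratCast (algebraMap ℚ ℂ) q).symm
  rw [h]
  exact isAlgebraic_algebraMap q

variable (D : ℕ) [NeZero D]

/-- The number `Γ (a / D)`. -/
def G (a : ZMod D) : ℂ := Complex.Gamma ((a.val : ℂ) / D)

/-- The logarithm of `Γ (a / D) ^ 2 / π` modulo logarithms of algebraic numbers. -/
def gv (a : ZMod D) : VV := lg (G D a ^ 2 / Real.pi)

variable {D}

theorem val_pos {a : ZMod D} (ha : a ≠ 0) : 0 < a.val :=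
  Nat.pos_of_ne_zero fun h => ha ((ZMod.val_eq_zero a).1 h)

theorem re_pos {a : ZMod D} (ha : a ≠ 0) : 0 < (((a.val : ℂ) / D)).re := by
  have h1 : ((a.val : ℂ) / D) = (((a.val : ℝ) / D : ℝ) : ℂ) := by
    push_cast
    rfl
  rw [h1, Complex.ofReal_re]
  have h2 : (0 : ℝ) < a.val := by exact_mod_cast val_pos ha
  have h3 : (0 : ℝ) < D := by exact_mod_cast Nat.pos_of_ne_zero (NeZero.ne D)
  exact div_pos h2 h3

theorem G_ne {a : ZMod D} (ha : a ≠ 0) : G D a ≠ 0 := Complex.Gamma_ne_zero_of_re_pos (re_pos ha)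

theorem pi_ne : (Real.pi : ℂ) ≠ 0 := by exact_mod_cast Real.pi_ne_zero

theorem gv_eq {a : ZMod D} (ha : a ≠ 0) : gv D a = (2 : ℕ) • lg (G D a) - lg (Real.pi : ℂ) := by
  unfold gv
  rw [lg_div (pow_ne_zero 2 (G_ne ha)) pi_ne, lg_pow (G_ne ha)]

theorem gv_neg {a : ZMod D} (ha : a ≠ 0) : gv D (-a) = - gv D a := by
  have hna : -a ≠ 0 := neg_ne_zero.2 ha
  have hD : (D : ℂ) ≠ 0 := by exact_mod_cast NeZero.ne D
  have hval : ((-a).val : ℂ) / D = 1 - (a.val : ℂ) / D := by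
    have : NeZero a := ⟨ha⟩
    rw [ZMod.val_neg_of_ne_zero a, Nat.cast_sub (ZMod.val_le a), sub_div, div_self hD]
  have h1 : G D a * G D (-a) = Real.pi / Complex.sin (Real.pi * ((a.val : ℂ) / D)) := by
    unfold G
    rw [hval]
    exact Complex.Gamma_mul_Gamma_one_sub _
  have hsin : IsAlgebraic ℚ (Complex.sin (Real.pi * ((a.val : ℂ) / D))) := by
    have h2 := Complex.isAlgebraic_sin_rat_mul_pi ((a.val : ℚ) / D)
    have h3 : (((a.val : ℚ) / D : ℚ) : ℂ) * Real.pi = Real.pi * ((a.val : ℂ) / D) := by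
      push_cast
      ring
    rw [h3] at h2
    exact h2.extendScalars (Int.cast_injective)
  have hsin0 : Complex.sin (Real.pi * ((a.val : ℂ) / D)) ≠ 0 := by
    intro h0
    rw [h0, div_zero] at h1
    exact (mul_ne_zero (G_ne ha) (G_ne hna)) h1
  have h2 : lg (G D a) + lg (G D (-a)) = lg (Real.pi : ℂ) := by
    rw [← lg_mul (G_ne ha) (G_ne hna), h1, lg_div pi_ne hsin0, lg_alg hsin0 hsin, sub_zero]
  rw [gv_eq ha, gv_eq hna, ← h2, two_nsmul, two_nsmul]
  abel

/-- The beta values. -/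
theorem lg_beta {a b : ZMod D} (ha : a ≠ 0) (hb : b ≠ 0) (hab : a + b ≠ 0) :
    Complex.betaIntegral ((a.val : ℂ) / D) ((b.val : ℂ) / D) ≠ 0 ∧
      lg (Complex.betaIntegral ((a.val : ℂ) / D) ((b.val : ℂ) / D) ^ 2 /
        (2 * Real.pi * Complex.I)) = gv D a + gv D b - gv D (a + b) := by
  have hD : (D : ℂ) ≠ 0 := by exact_mod_cast NeZero.ne D
  have h1 := Complex.Gamma_mul_Gamma_eq_betaIntegral (re_pos ha) (re_pos hb)
  have hsum : Complex.Gamma ((a.val : ℂ) / D + (b.val : ℂ) / D) ≠ 0 ∧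
      lg (Complex.Gamma ((a.val : ℂ) / D + (b.val : ℂ) / D)) = lg (G D (a + b)) := by
    by_cases h : a.val + b.val < D
    · have h2 : (a + b).val = a.val + b.val := ZMod.val_add_of_lt h
      have h3 : ((a.val : ℂ) / D + (b.val : ℂ) / D) = (((a + b).val : ℕ) : ℂ) / D := by
        rw [h2]
        push_cast
        ring
      rw [h3]
      exact ⟨G_ne hab, rfl⟩
    · push Not at h
      have h2 : (a + b).val + D = a.val + b.val := (ZMod.val_add_val_of_le h).symm ▸ rfl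
      have h3 : ((a.val : ℂ) / D + (b.val : ℂ) / D) = (((a + b).val : ℕ) : ℂ) / D + 1 := by
        have h4 : (((a + b).val : ℕ) : ℂ) + D = a.val + b.val := by exact_mod_cast h2
        field_simp
        rw [← h4]
      have h5 : (((a + b).val : ℕ) : ℂ) / D ≠ 0 := by
        refine div_ne_zero ?_ hD
        exact_mod_cast (val_pos hab).ne'
      rw [h3, Complex.Gamma_add_one _ h5]
      refine ⟨mul_ne_zero h5 (G_ne hab), ?_⟩
      have h6 : IsAlgebraic ℚ ((((a + b).val : ℕ) : ℂ) / D) := by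
        have h7 : ((((a + b).val : ℕ) : ℂ) / D) = (((((a + b).val : ℕ) : ℚ) / D : ℚ) : ℂ) := by
          push_cast
          rfl
        rw [h7]
        exact alg_rat _
      change lg ((((a + b).val : ℕ) : ℂ) / D * G D (a + b)) = lg (G D (a + b))
      rw [lg_mul h5 (G_ne hab), lg_alg h5 h6, zero_add]
  obtain ⟨hs0, hs⟩ := hsum
  have hbeta0 : Complex.betaIntegral ((a.val : ℂ) / D) ((b.val : ℂ) / D) ≠ 0 := by
    intro h0
    rw [h0, mul_zero] at h1
    exact mul_ne_zero (G_ne ha) (G_ne hb) h1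
  refine ⟨hbeta0, ?_⟩
  have h2 : lg (G D a) + lg (G D b) = lg (G D (a + b)) +
      lg (Complex.betaIntegral ((a.val : ℂ) / D) ((b.val : ℂ) / D)) := by
    rw [← hs, ← lg_mul hs0 hbeta0, ← h1, ← lg_mul (G_ne ha) (G_ne hb)]
    rfl
  have h3 : lg (2 * Real.pi * Complex.I) = lg (Real.pi : ℂ) := by
    have h4 : (2 * Real.pi * Complex.I : ℂ) = (2 * Complex.I) * Real.pi := by ring
    have h5 : (2 * Complex.I : ℂ) ≠ 0 := mul_ne_zero two_ne_zero Complex.I_ne_zero
    have h6 : IsAlgebraic ℚ (2 * Complex.I : ℂ) := by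
      have h7 : IsAlgebraic ℚ (Complex.I) := by
        refine IsAlgebraic.of_pow two_pos ?_
        rw [Complex.I_sq]
        have h8 := alg_rat (-1)
        push_cast at h8
        exact h8
      have h9 := alg_rat 2
      push_cast at h9
      exact h9.mul h7
    rw [h4, lg_mul h5 pi_ne, lg_alg h5 h6, zero_add]
  rw [lg_div (pow_ne_zero 2 hbeta0) Complex.two_pi_I_ne_zero, lg_pow hbeta0, h3, gv_eq ha,
    gv_eq hb, gv_eq hab]
  have h4 : lg (Complex.betaIntegral ((a.val : ℂ) / D) ((b.val : ℂ) / D)) =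
      lg (G D a) + lg (G D b) - lg (G D (a + b)) := by
    rw [h2]
    abel
  rw [h4]
  simp only [two_nsmul]
  abel

end

end Pool.Agent.TH127.GA
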