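import Mathlib
import Pool.Agent.W527.VPeriod

/-!
# Pairs of types and periods
-/

set_option linter.unusedSectionVars false
set_option linter.unusedVariables false

namespace Pool.Agent.TH127.GA

open NumberField Pool.Agent.W547.KB Pool.Agent.W537.PC Pool.Agent.W527.Vec

noncomputable section

section telescope

variable {D : ℕ} [NeZero D]

theorem telescope_aux {V : Type*} [AddCommGroup V] (f : ZMod D → V) (a : ZMod D) (m : ℕ)
    (hm : 1 ≤ m) : ∑ k ∈ Finset.Ico 1 m, (f (k • a) + f a - f (k • a + a)) =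
      m • f a - f (m • a) := by
  induction m, hm using Nat.le_induction with
  | base => simp
  | succ m hm ih =>
    rw [Finset.sum_Ico_succ_top hm, ih, succ_nsmul, succ_nsmul]
    abel

theorem two_le_order {a : ZMod D} (ha : a ≠ 0) : 2 ≤ addOrderOf a := by
  have h1 : addOrderOf a ≠ 1 := fun h => ha (AddMonoid.addOrderOf_eq_one_iff.1 h)
  have h2 : 0 < addOrderOf a := addOrderOf_pos a
  omega

theorem telescope {V : Type*} [AddCommGroup V] (f : ZMod D → V)
    (hf : ∀ a, a ≠ 0 → f (-a) = - f a) {a : ZMod D} (ha : a ≠ 0) :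
    ∑ k ∈ Finset.Ico 1 (addOrderOf a - 1), (f (k • a) + f a - f (k • a + a)) =
      addOrderOf a • f a := by
  have h2 := two_le_order ha
  rw [telescope_aux f a _ (by omega)]
  have h3 : (addOrderOf a - 1) • a = -a := by
    have h4 : addOrderOf a • a = 0 := addOrderOf_nsmul_eq_zero a
    have h5 : addOrderOf a = (addOrderOf a - 1) + 1 := by omega
    rw [h5, succ_nsmul] at h4
    exact eq_neg_of_add_eq_zero_left h4
  rw [h3, hf a ha, sub_neg_eq_add, ← succ_nsmul]
  congr 1
  omega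

theorem nsmul_ne {a : ZMod D} (ha : a ≠ 0) {k : ℕ}
    (hk : k ∈ Finset.Ico 1 (addOrderOf a - 1)) : k • a ≠ 0 ∧ k • a + a ≠ 0 := by
  rw [Finset.mem_Ico] at hk
  constructor
  · intro h
    have := Nat.le_of_dvd (by omega) (addOrderOf_dvd_iff_nsmul_eq_zero.2 h)
    omega
  · intro h
    rw [← succ_nsmul] at h
    have := Nat.le_of_dvd (by omega) (addOrderOf_dvd_iff_nsmul_eq_zero.2 h)
    omega

end telescope

variable {L : Type} [Field L] [NumberField L] [IsCMField L] [IsGalois ℚ L] (j : L →+* ℂ)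
  (P : PeriodSystem)

/-- The group generated by the pairs (type, logarithm of the period) of the letters. -/
def RR : AddSubgroup (((L ≃ₐ[ℚ] L) → ℤ) × VV) :=
  AddSubgroup.closure {p | ∃ x : Letter L, p = (fun σ => x.s j σ, WL j P x)}

theorem letter_mem (x : Letter L) : ((fun σ => x.s j σ, WL j P x) : ((L ≃ₐ[ℚ] L) → ℤ) × VV) ∈
    RR j P := AddSubgroup.subset_closure ⟨x, rfl⟩

theorem exists_word {p : ((L ≃ₐ[ℚ] L) → ℤ) × VV} (hp : p ∈ RR j P) :
    ∃ (K : Type) (s : Finset K) (x : K → Letter L) (n : K → ℤ),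
      (∀ σ, p.1 σ = ∑ k ∈ s, n k * (x k).s j σ) ∧ p.2 = ∑ k ∈ s, n k • WL j P (x k) := by
  classical
  unfold RR at hp
  induction hp using AddSubgroup.closure_induction with
  | mem p h =>
    obtain ⟨x, rfl⟩ := h
    refine ⟨Unit, Finset.univ, fun _ => x, fun _ => 1, fun σ => ?_, ?_⟩
    · simp
    · simp
  | zero =>
    have x0 : Letter L ⊕ Unit := Sum.inr ()
    refine ⟨Empty, Finset.univ, fun e => e.elim, fun _ => 0, fun σ => ?_, ?_⟩
    · simp
    · simp
  | add p q _ _ ih1 ih2 =>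
    obtain ⟨K, s, x, n, h1, h2⟩ := ih1
    obtain ⟨K', s', x', n', h1', h2'⟩ := ih2
    refine ⟨K ⊕ K', s.disjSum s', Sum.elim x x', Sum.elim n n', fun σ => ?_, ?_⟩
    · rw [Finset.sum_disjSum]
      simp only [Sum.elim_inl, Sum.elim_inr]
      rw [← h1, ← h1']
      rfl
    · rw [Finset.sum_disjSum]
      simp only [Sum.elim_inl, Sum.elim_inr]
      rw [← h2, ← h2']
      rfl
  | neg p _ ih =>
    obtain ⟨K, s, x, n, h1, h2⟩ := ih
    refine ⟨K, s, x, fun k => - n k, fun σ => ?_, ?_⟩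
    · simp only [neg_mul, Finset.sum_neg_distrib]
      rw [← h1]
      rfl
    · simp only [neg_smul, Finset.sum_neg_distrib]
      rw [← h2]
      rfl

variable {P j} in
theorem rel_zero (hD : P.Deligne) {v : VV} (h : ((0, v) : ((L ≃ₐ[ℚ] L) → ℤ) × VV) ∈ RR j P) :
    v = 0 := by
  obtain ⟨K, s, x, n, h1, h2⟩ := exists_word j P h
  change v = _ at h2
  rw [h2]
  exact deligne_sum j hD s x n fun σ => (h1 σ).symm

end

end Pool.Agent.TH127.GA
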