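import Mathlib
import Pool.Agent.TH127.GA.Defs
import Pool.Agent.TH127.GA.Gam
import Pool.Agent.TH127.GA.Rel

/-!
# The letters belonging to the Fermat curves
-/

set_option linter.unusedSectionVars false
set_option linter.unusedVariables false

namespace Pool.Agent.TH127.GA

open NumberField Pool.Agent.H204R3.CM Pool.Agent.W547.KB Pool.Agent.W537.PC Pool.Agent.W527.Vec

noncomputable section

section arith

variable {D : ℕ} [NeZero D]

theorem val_neg_add {a : ZMod D} (ha : a ≠ 0) : (-a).val + a.val = D := by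
  have : NeZero a := ⟨ha⟩
  rw [ZMod.val_neg_of_ne_zero a]
  exact Nat.sub_add_cancel (ZMod.val_le a)

theorem type_iff {a b : ZMod D} (ha : a ≠ 0) (hb : b ≠ 0) (hab : a + b ≠ 0) :
    a.val + b.val < D ↔ ¬ ((-a).val + (-b).val < D) := by
  have h1 := val_neg_add ha
  have h2 := val_neg_add hb
  have h3 : a.val + b.val ≠ D := by
    intro h
    apply hab
    have h4 : ((a.val + b.val : ℕ) : ZMod D) = a + b := by
      push_cast
      rw [ZMod.natCast_zmod_val, ZMod.natCast_zmod_val]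
    rw [← h4, h]
    exact ZMod.natCast_self D
  omega

/-- The integer `D - 2 a`, for the representative `a` between `0` and `D`. -/
def sB (a : ZMod D) : ℤ := (D : ℤ) - 2 * a.val

theorem sB_neg {a : ZMod D} (ha : a ≠ 0) : sB (-a) = - sB a := by
  have h1 := val_neg_add ha
  unfold sB
  omega

theorem sB_sum {a b : ZMod D} :
    sB a + sB b - sB (a + b) = if a.val + b.val < D then (D : ℤ) else -D := by
  unfold sB
  split_ifs with h
  · have h1 : (a + b).val = a.val + b.val := ZMod.val_add_of_lt h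
    omega
  · push Not at h
    have h1 := ZMod.val_add_val_of_le h
    omega

end arith

variable {D : ℕ} [NeZero D] {L : Type} [Field L] [NumberField L] [IsCMField L] [IsGalois ℚ L]
  [IsCyclotomicExtension {D} ℚ L] (j : L →+* ℂ) (P : PeriodSystem)

/-- The class modulo `D` belonging to an automorphism. -/
def cl (D : ℕ) [NeZero D] (L : Type) [Field L] [NumberField L] [IsCyclotomicExtension {D} ℚ L]
    (σ : L ≃ₐ[ℚ] L) : ZMod D :=
  ((IsCyclotomicExtension.Rat.galEquivZMod D L σ : (ZMod D)ˣ) : ZMod D)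

theorem cl_mul (σ τ : L ≃ₐ[ℚ] L) : cl D L (σ * τ) = cl D L σ * cl D L τ := by
  unfold cl
  rw [map_mul, Units.val_mul]

theorem cl_isUnit (σ : L ≃ₐ[ℚ] L) : IsUnit (cl D L σ) := Units.isUnit _

theorem cl_mul_ne {a : ZMod D} (ha : a ≠ 0) (σ : L ≃ₐ[ℚ] L) : cl D L σ * a ≠ 0 := by
  intro h
  exact ha ((cl_isUnit σ).mul_right_eq_zero.1 h)

theorem exists_cl {u : ZMod D} (hu : IsUnit u) : ∃ σ : L ≃ₐ[ℚ] L, cl D L σ = u := by
  obtain ⟨v, rfl⟩ := hu
  refine ⟨(IsCyclotomicExtension.Rat.galEquivZMod D L).symm v, ?_⟩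
  unfold cl
  rw [MulEquiv.apply_symm_apply]

variable {j} {ζ : L} (hζ : IsPrimitiveRoot ζ D) (hj : j ζ = ZMod.stdAddChar (1 : ZMod D))

include hζ hj

theorem emb_zeta (σ : L ≃ₐ[ℚ] L) : j (σ ζ) = ZMod.stdAddChar (cl D L σ) := by
  rw [IsCyclotomicExtension.Rat.galEquivZMod_apply_of_pow_eq D L σ hζ.pow_eq_one, map_pow, hj,
    ← AddChar.map_nsmul_eq_pow, nsmul_eq_mul, mul_one]
  congr 1
  exact ZMod.natCast_zmod_val _

theorem cl_cc : cl D L (cc L) = -1 := by
  apply ZMod.injective_stdAddChar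
  rw [← emb_zeta hζ hj, emb_cc, hj, AddChar.map_neg_eq_conj]

/-- The CM type belonging to the pair `a, b`. -/
theorem pair_isCMType {a b : ZMod D} (ha : a ≠ 0) (hb : b ≠ 0) (hab : a + b ≠ 0) :
    IsCMType {φ : L →+* ℂ | ∃ u : ZMod D, φ ζ = ZMod.stdAddChar u ∧
      (u * a).val + (u * b).val < D} := by
  have key : ∀ σ : L ≃ₐ[ℚ] L, (j.comp (σ : L →+* L)) ∈ {φ : L →+* ℂ | ∃ u : ZMod D,
      φ ζ = ZMod.stdAddChar u ∧ (u * a).val + (u * b).val < D} ↔
      (cl D L σ * a).val + (cl D L σ * b).val < D := by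
    intro σ
    constructor
    · rintro ⟨u, h1, h2⟩
      have h3 : j (σ ζ) = ZMod.stdAddChar u := h1
      rw [emb_zeta hζ hj] at h3
      rwa [ZMod.injective_stdAddChar h3]
    · intro h
      exact ⟨_, emb_zeta hζ hj σ, h⟩
  intro φ
  obtain ⟨σ, rfl⟩ := comp_surjective j φ
  rw [← comp_cc, key, key, cl_mul, cl_cc hζ hj]
  have h1 := type_iff (cl_mul_ne ha σ) (cl_mul_ne hb σ) (by
    rw [← mul_add]
    exact cl_mul_ne hab σ)
  rw [h1]
  simp only [neg_mul, one_mul]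

theorem exists_letter (hF : FermatPeriods P) {a b : ZMod D} (ha : a ≠ 0) (hb : b ≠ 0)
    (hab : a + b ≠ 0) : ∃ x : Letter L,
      (∀ σ, (D : ℤ) * x.s j σ = sB (cl D L σ * a) + sB (cl D L σ * b) - sB (cl D L σ * (a + b))) ∧
      ∀ τ, WL j P (x.act τ) =
        gv D (cl D L τ * a) + gv D (cl D L τ * b) - gv D (cl D L τ * (a + b)) := by
  classical
  let A : CMPair := ⟨L, _, pair_isCMType hζ hj ha hb hab⟩
  let x : Letter L := ⟨A, RingHom.id L⟩
  have htype : ∀ (φ : A.E →+* ℂ) (u : ZMod D), φ (ζ : A.E) = ZMod.stdAddChar u →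
      (φ ∈ A.Φ ↔ (u * a).val + (u * b).val < D) := by
    intro φ u hu
    constructor
    · rintro ⟨v, h1, h2⟩
      have h3 := h1.symm.trans hu
      rwa [ZMod.injective_stdAddChar h3] at h2
    · intro h
      exact ⟨u, hu, h⟩
  have hcomp : ∀ τ : L ≃ₐ[ℚ] L, (j.comp (τ • (RingHom.id L) : L →+* L)) ζ =
      ZMod.stdAddChar (cl D L τ) := fun τ => emb_zeta hζ hj τ
  refine ⟨x, fun σ => ?_, fun τ => ?_⟩
  · rw [mul_add (cl D L σ), sB_sum]
    have h1 := htype (j.comp (σ • x.φ)) (cl D L σ) (hcomp σ)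
    by_cases h : (cl D L σ * a).val + (cl D L σ * b).val < D
    · rw [if_pos h, x.s_pos j σ (h1.2 h), mul_one]
    · rw [if_neg h, x.s_neg j σ (fun h2 => h (h1.1 h2)), mul_neg, mul_one]
  · have hadj : Algebra.adjoin ℚ {(ζ : L)} = ⊤ :=
      IsCyclotomicExtension.adjoin_primitive_root_eq_top hζ
    have h1 := hF D a b A (ζ : L) ha hb hab hζ hadj htype (j.comp (τ • x.φ)) (cl D L τ) (hcomp τ)
    have h2 := lg_beta (cl_mul_ne (L := L) ha τ) (cl_mul_ne (L := L) hb τ) (by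
      rw [← mul_add]
      exact cl_mul_ne hab τ)
    rw [mul_add, ← h2.2]
    have hθ : P.θ A (j.comp (τ • x.φ)) ≠ 0 := P.ne_zero _ _
    have h3 : lg (P.θ A (j.comp (τ • x.φ))) = lg (Complex.betaIntegral
        ((((cl D L τ * a).val : ℕ) : ℂ) / D) ((((cl D L τ * b).val : ℕ) : ℂ) / D)) := by
      rw [← sub_eq_zero, ← lg_div hθ h2.1]
      exact lg_alg (div_ne_zero hθ h2.1) h1
    unfold WL PeriodSystem.rl PeriodSystem.tl
    rw [lg_div (pow_ne_zero 2 (P.ne_zero _ _)) Complex.two_pi_I_ne_zero,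
      lg_div (pow_ne_zero 2 h2.1) Complex.two_pi_I_ne_zero, lg_pow (P.ne_zero _ _), lg_pow h2.1]
    rw [← h3]
    rfl

end

end Pool.Agent.TH127.GA
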