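import Mathlib
import Pool.Agent.H977R3.CM.Aut
import Pool.Agent.TH127.GA.Cyc

/-!
# Small combinations
-/

set_option linter.unusedSectionVars false
set_option linter.unusedVariables false

namespace Pool.Agent.TH127.GA

open NumberField Pool.Agent.H204R3.CM Pool.Agent.W547.KB Pool.Agent.W537.PC Pool.Agent.W527.Vec

noncomputable section

variable {D : ℕ} [NeZero D] {L : Type} [Field L] [NumberField L] [IsCMField L] [IsGalois ℚ L]
  [IsCyclotomicExtension {D} ℚ L] {j : L →+* ℂ} {P : PeriodSystem} {ζ : L}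

/-- The pair of the type and the logarithm of a gamma value. -/
def FF (D : ℕ) [NeZero D] (L : Type) [Field L] [NumberField L] [IsCyclotomicExtension {D} ℚ L]
    (τ : L ≃ₐ[ℚ] L) (a : ZMod D) : ((L ≃ₐ[ℚ] L) → ℤ) × VV :=
  (fun σ => sB (cl D L σ * (cl D L τ * a)), (D : ℤ) • gv D (cl D L τ * a))

theorem FF_neg (τ : L ≃ₐ[ℚ] L) {a : ZMod D} (ha : a ≠ 0) : FF D L τ (-a) = - FF D L τ a := by
  unfold FF
  rw [Prod.neg_mk]
  congr 1
  · funext σ
    rw [mul_neg, mul_neg, sB_neg (cl_mul_ne (cl_mul_ne ha τ) σ)]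
    rfl
  · rw [mul_neg, gv_neg (cl_mul_ne ha τ), smul_neg]

theorem FF_mem (hζ : IsPrimitiveRoot ζ D) (hj : j ζ = ZMod.stdAddChar (1 : ZMod D))
    (hF : FermatPeriods P) (τ : L ≃ₐ[ℚ] L) {a : ZMod D} (ha : a ≠ 0) :
    (D : ℤ) • FF D L τ a ∈ RR j P := by
  have key : ∀ {a b : ZMod D}, a ≠ 0 → b ≠ 0 → a + b ≠ 0 →
      FF D L τ a + FF D L τ b - FF D L τ (a + b) ∈ RR j P := by
    intro a b ha hb hab
    obtain ⟨x, hx1, hx2⟩ := exists_letter P hζ hj hF ha hb hab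
    have h1 := AddSubgroup.zsmul_mem _ (letter_mem j P (x.act τ)) (D : ℤ)
    have h2 : (D : ℤ) • ((fun σ => (x.act τ).s j σ, WL j P (x.act τ)) :
        ((L ≃ₐ[ℚ] L) → ℤ) × VV) = FF D L τ a + FF D L τ b - FF D L τ (a + b) := by
      unfold FF
      rw [Prod.smul_mk, Prod.mk_add_mk, Prod.mk_sub_mk]
      congr 1
      · funext σ
        change (D : ℤ) * (x.act τ).s j σ = sB (cl D L σ * (cl D L τ * a)) +
          sB (cl D L σ * (cl D L τ * b)) - sB (cl D L σ * (cl D L τ * (a + b)))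
        rw [Letter.s_act, hx1, cl_mul]
        simp only [mul_assoc]
      · rw [hx2, smul_sub, smul_add]
    rwa [h2] at h1
  have h1 := telescope (fun a => FF D L τ a) (fun a ha => FF_neg τ ha) ha
  have h2 : addOrderOf a • FF D L τ a ∈ RR j P := by
    rw [← h1]
    exact AddSubgroup.sum_mem _ fun k hk => key (nsmul_ne ha hk).1 ha (nsmul_ne ha hk).2
  have h3 : addOrderOf a ∣ D := addOrderOf_dvd_of_nsmul_eq_zero (by
    rw [nsmul_eq_mul, ZMod.natCast_self, zero_mul])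
  obtain ⟨k, hk⟩ := h3
  have h4 := AddSubgroup.nsmul_mem _ h2 k
  have h5 : (D : ℤ) • FF D L τ a = k • addOrderOf a • FF D L τ a := by
    rw [natCast_zsmul, smul_smul, mul_comm k, ← hk]
  rwa [h5]

theorem zsmul_cancel {n : ℤ} (hn : n ≠ 0) {v : VV} (h : n • v = 0) : v = 0 := by
  have h1 : ((n : ℤ) : ℚ) • v = 0 := by
    rw [← h]
    exact Int.cast_smul_eq_zsmul ℚ n v
  rcases smul_eq_zero.1 h1 with h2 | h2
  · exact absurd (by exact_mod_cast h2) hn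
  · exact h2

/-- **The core.** -/
theorem core (hD2 : 2 < D) (hζ : IsPrimitiveRoot ζ D) (hj : j ζ = ZMod.stdAddChar (1 : ZMod D))
    (hDel : P.Deligne) (hW : Wuestholz P) (hF : FermatPeriods P) {r : ℕ} (b : Fin r → ZMod D)
    (hb : ∀ i, b i ≠ 0) (c : (L ≃ₐ[ℚ] L) → ℤ)
    (hc : ∀ τ, c τ ≠ 0 → ∑ i, gv D (cl D L τ * b i) = 0) (h : (L ≃ₐ[ℚ] L) → ℤ) {N : ℕ}
    (hN : 0 < N) (hval : ∀ σ, h σ = 0 ∨ h σ = 1 ∨ h σ = -1)
    (hrel : ∀ σ, ∑ τ, c τ * ∑ i, sB (cl D L σ * (cl D L τ * b i)) = N * h σ) : h = 0 := by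
  classical
  have hcc : ∀ σ, cl D L (cc L * σ) = - cl D L σ := by
    intro σ
    rw [cl_mul, cl_cc hζ hj, neg_one_mul]
  have hodd : ∀ σ, h (cc L * σ) = - h σ := by
    intro σ
    have h1 := hrel σ
    have h2 := hrel (cc L * σ)
    have h3 : ∑ τ, c τ * ∑ i, sB (cl D L (cc L * σ) * (cl D L τ * b i)) =
        - ∑ τ, c τ * ∑ i, sB (cl D L σ * (cl D L τ * b i)) := by
      rw [← Finset.sum_neg_distrib]
      refine Finset.sum_congr rfl fun τ _ => ?_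
      rw [← mul_neg, ← Finset.sum_neg_distrib]
      congr 1
      refine Finset.sum_congr rfl fun i _ => ?_
      rw [hcc, neg_mul, sB_neg (cl_mul_ne (cl_mul_ne (hb i) τ) σ)]
    rw [h3, h1] at h2
    have hN' : (N : ℤ) ≠ 0 := by exact_mod_cast hN.ne'
    have h4 : (N : ℤ) * (h (cc L * σ) + h σ) = 0 := by
      rw [mul_add, ← h2]
      ring
    rcases mul_eq_zero.1 h4 with h5 | h5
    · exact absurd h5 hN'
    · omega
  -- the auxiliary half system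
  have hhalf : ∀ σ : L ≃ₐ[ℚ] L, 2 * (cl D L σ).val < D ↔ ¬ 2 * (cl D L (cc L * σ)).val < D := by
    intro σ
    rw [hcc]
    have h1 : cl D L σ ≠ 0 := by
      have : Fact (1 < D) := ⟨by omega⟩
      exact (cl_isUnit σ).ne_zero
    have h2 : cl D L σ + cl D L σ ≠ 0 := by
      rw [← two_mul, mul_comm]
      have h3 : ((2 : ℕ) : ZMod D) ≠ 0 := by
        intro h0
        rw [ZMod.natCast_eq_zero_iff] at h0
        exact absurd (Nat.le_of_dvd two_pos h0) (by omega)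
      exact cl_mul_ne (by exact_mod_cast h3) σ
    have h3 := type_iff h1 h1 h2
    rw [← two_mul, ← two_mul] at h3
    exact h3
  let S : Set (L ≃ₐ[ℚ] L) := {σ | h σ = 1 ∨ (h σ = 0 ∧ 2 * (cl D L σ).val < D)}
  let S' : Set (L ≃ₐ[ℚ] L) := {σ | h σ = -1 ∨ (h σ = 0 ∧ 2 * (cl D L σ).val < D)}
  have hS : IsHalf S := by
    intro σ
    change (h σ = 1 ∨ (h σ = 0 ∧ 2 * (cl D L σ).val < D)) ↔
      ¬ (h (cc L * σ) = 1 ∨ (h (cc L * σ) = 0 ∧ 2 * (cl D L (cc L * σ)).val < D))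
    rw [hodd]
    have h1 := hval σ
    have h2 := hhalf σ
    omega
  have hS' : IsHalf S' := by
    intro σ
    change (h σ = -1 ∨ (h σ = 0 ∧ 2 * (cl D L σ).val < D)) ↔
      ¬ (h (cc L * σ) = -1 ∨ (h (cc L * σ) = 0 ∧ 2 * (cl D L (cc L * σ)).val < D))
    rw [hodd]
    have h1 := hval σ
    have h2 := hhalf σ
    omega
  let A1 : CMPair := ⟨L, typeOf j S, isCMType_typeOf j hS⟩
  let A2 : CMPair := ⟨L, typeOf j S', isCMType_typeOf j hS'⟩
  let x1 : Letter L := ⟨A1, RingHom.id L⟩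
  let x2 : Letter L := ⟨A2, RingHom.id L⟩
  have hx1 : ∀ σ, (σ ∈ S → x1.s j σ = 1) ∧ (σ ∉ S → x1.s j σ = -1) := fun σ =>
    ⟨fun hσ => x1.s_pos j σ ((mem_typeOf j S σ).2 hσ),
      fun hσ => x1.s_neg j σ fun h2 => hσ ((mem_typeOf j S σ).1 h2)⟩
  have hx2 : ∀ σ, (σ ∈ S' → x2.s j σ = 1) ∧ (σ ∉ S' → x2.s j σ = -1) := fun σ =>
    ⟨fun hσ => x2.s_pos j σ ((mem_typeOf j S' σ).2 hσ),
      fun hσ => x2.s_neg j σ fun h2 => hσ ((mem_typeOf j S' σ).1 h2)⟩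
  have hdiff : ∀ σ, x1.s j σ - x2.s j σ = 2 * h σ := by
    intro σ
    have e1 : σ ∈ S ↔ (h σ = 1 ∨ (h σ = 0 ∧ 2 * (cl D L σ).val < D)) := Iff.rfl
    have e2 : σ ∈ S' ↔ (h σ = -1 ∨ (h σ = 0 ∧ 2 * (cl D L σ).val < D)) := Iff.rfl
    have h1 := hval σ
    have h3 := hx1 σ
    have h4 := hx2 σ
    rw [e1] at h3
    rw [e2] at h4
    omega
  -- the relation
  have hq : ∑ τ, c τ • (∑ i, (D : ℤ) • FF D L τ (b i)) ∈ RR j P :=
    AddSubgroup.sum_mem _ fun τ _ => AddSubgroup.zsmul_mem _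
      (AddSubgroup.sum_mem _ fun i _ => FF_mem hζ hj hF τ (hb i)) _
  have hq1 : (∑ τ, c τ • (∑ i, (D : ℤ) • FF D L τ (b i))) =
      ((fun σ => (D : ℤ) * (N * h σ), 0) : ((L ≃ₐ[ℚ] L) → ℤ) × VV) := by
    refine Prod.ext ?_ ?_
    · funext σ
      change _ = (D : ℤ) * (N * h σ)
      rw [Prod.fst_sum, Finset.sum_apply, ← hrel σ, Finset.mul_sum]
      refine Finset.sum_congr rfl fun τ _ => ?_
      rw [Prod.smul_fst, Prod.fst_sum, Pi.smul_apply, Finset.sum_apply, smul_eq_mul,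
        Finset.mul_sum, Finset.mul_sum, Finset.mul_sum]
      refine Finset.sum_congr rfl fun i _ => ?_
      change c τ * ((D : ℤ) * sB (cl D L σ * (cl D L τ * b i))) = _
      ring
    · rw [Prod.snd_sum]
      refine Finset.sum_eq_zero fun τ _ => ?_
      rw [Prod.smul_snd, Prod.snd_sum]
      by_cases h0 : c τ = 0
      · rw [h0, zero_smul]
      · have h1 : (∑ i, ((D : ℤ) • FF D L τ (b i)).2) =
            (D : ℤ) • (D : ℤ) • ∑ i, gv D (cl D L τ * b i) := by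
          rw [Finset.smul_sum, Finset.smul_sum]
          rfl
        rw [h1, hc τ h0, smul_zero, smul_zero, smul_zero]
  have hmem : ((0, ((D : ℤ) * N) • (WL j P x1 - WL j P x2)) : ((L ≃ₐ[ℚ] L) → ℤ) × VV) ∈
      RR j P := by
    have h1 := AddSubgroup.sub_mem _ (AddSubgroup.zsmul_mem _
      (AddSubgroup.sub_mem _ (letter_mem j P x1) (letter_mem j P x2)) ((D : ℤ) * N))
      (AddSubgroup.zsmul_mem _ hq 2)
    rw [hq1] at h1
    have h2 : (((D : ℤ) * N) • (((fun σ => x1.s j σ, WL j P x1) : ((L ≃ₐ[ℚ] L) → ℤ) × VV) -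
        (fun σ => x2.s j σ, WL j P x2)) - (2 : ℤ) • ((fun σ => (D : ℤ) * (N * h σ), 0) :
          ((L ≃ₐ[ℚ] L) → ℤ) × VV)) = (0, ((D : ℤ) * N) • (WL j P x1 - WL j P x2)) := by
      refine Prod.ext ?_ ?_
      · funext σ
        change ((D : ℤ) * N) * (x1.s j σ - x2.s j σ) - 2 * ((D : ℤ) * (N * h σ)) = 0
        rw [hdiff]
        ring
      · change ((D : ℤ) * N) • (WL j P x1 - WL j P x2) - (2 : ℤ) • (0 : VV) = _
        rw [smul_zero, sub_zero]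
    rwa [h2] at h1
  have h0 := rel_zero hDel hmem
  have h1 : WL j P x1 - WL j P x2 = 0 := by
    refine zsmul_cancel ?_ h0
    have h2 : (D : ℤ) ≠ 0 := by exact_mod_cast NeZero.ne D
    have h3 : (N : ℤ) ≠ 0 := by exact_mod_cast hN.ne'
    exact mul_ne_zero h2 h3
  have h2 : IsAlgebraic ℚ (P.rl j x1 / P.rl j x2) := by
    refine alg_of_lg (div_ne_zero (P.rl_ne j _) (P.rl_ne j _)) ?_
    rw [lg_div (P.rl_ne j _) (P.rl_ne j _)]
    exact h1
  have h3 : IsAlgebraic ℚ (P.θ A1 j / P.θ A2 j) := by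
    refine IsAlgebraic.of_pow two_pos ?_
    have h4 : P.rl j x1 / P.rl j x2 = (P.θ A1 j / P.θ A2 j) ^ 2 := by
      unfold PeriodSystem.rl
      rw [div_div_div_cancel_right₀ Complex.two_pi_I_ne_zero, div_pow]
      rfl
    rwa [h4] at h2
  funext σ
  obtain ⟨τ, hτ⟩ := Pool.Agent.H977R3.CM.exists_aut j (σ : L ≃+* L)
  have h4 := hW A1 A2 j j h3 τ
  have h5 : (τ : ℂ →+* ℂ).comp j = j.comp (σ : L →+* L) := RingHom.ext fun x => hτ x
  rw [h5] at h4
  have h6 : x1.s j σ = x2.s j σ := by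
    by_cases h7 : σ ∈ S
    · have h8 : σ ∈ S' := (mem_typeOf j S' σ).1 (h4.1 ((mem_typeOf j S σ).2 h7))
      rw [(hx1 σ).1 h7, (hx2 σ).1 h8]
    · have h8 : σ ∉ S' := fun h9 => h7 ((mem_typeOf j S σ).1 (h4.2 ((mem_typeOf j S' σ).2 h9)))
      rw [(hx1 σ).2 h7, (hx2 σ).2 h8]
  have h7 := hdiff σ
  change h σ = 0
  omega

end

end Pool.Agent.TH127.GA
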