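import Mathlib
import Pool.Agent.TH127.GA.Defs
import Pool.Agent.TH127.GA.Cyc

/-!
# Values of the gamma function at rational points
-/

set_option linter.unusedSectionVars false
set_option linter.unusedVariables false

namespace Pool.Agent.TH127.GA

open Pool.Agent.W527.Vec

noncomputable section

theorem rat_not_int {q : ℚ} (hq : ∀ k : ℤ, q ≠ k) (n : ℤ) (m : ℕ) : ((q : ℂ) + n) ≠ -(m : ℂ) := by
  intro h
  apply hq (-(m : ℤ) - n)
  have h1 : ((q : ℚ) : ℂ) = (((-(m : ℤ) - n : ℤ) : ℚ) : ℂ) := by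
    push_cast
    rw [← h]
    ring
  exact_mod_cast h1

theorem lg_gamma_add {q : ℚ} (hq : ∀ k : ℤ, q ≠ k) (n : ℤ) :
    lg (Complex.Gamma ((q : ℂ) + n)) = lg (Complex.Gamma (q : ℂ)) := by
  have step : ∀ n : ℤ, lg (Complex.Gamma ((q : ℂ) + (n + 1 : ℤ))) =
      lg (Complex.Gamma ((q : ℂ) + n)) := by
    intro n
    have h0 : ((q : ℂ) + n) ≠ 0 := by
      have h1 := rat_not_int hq n 0
      simpa using h1
    have h1 : Complex.Gamma ((q : ℂ) + n) ≠ 0 :=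
      Complex.Gamma_ne_zero fun m => rat_not_int hq n m
    have h2 : ((q : ℂ) + (n + 1 : ℤ)) = ((q : ℂ) + n) + 1 := by
      push_cast
      ring
    have h3 : IsAlgebraic ℚ ((q : ℂ) + n) := by
      have h4 := alg_rat (q + n)
      push_cast at h4
      exact h4
    rw [h2, Complex.Gamma_add_one _ h0, lg_mul h0 h1, lg_alg h0 h3, zero_add]
  induction n using Int.induction_on with
  | zero => simp
  | succ k ih => rw [step, ih]
  | pred k ih =>
    rw [← ih, ← step (-(k : ℤ) - 1)]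
    congr 3
    push_cast
    ring

variable {D : ℕ} [NeZero D]

theorem fract_eq {q : ℚ} {k : ℤ} (h : (D : ℚ) * q = k) :
    Int.fract q = (((k : ZMod D).val : ℕ) : ℚ) / D := by
  have hD : (D : ℚ) ≠ 0 := by exact_mod_cast NeZero.ne D
  have h1 : q = (k : ℚ) / (D : ℕ) := by
    field_simp
    linarith
  rw [h1, Int.fract_div_intCast_eq_div_intCast_mod]
  congr 1
  rw [← ZMod.val_intCast]
  push_cast
  rfl

theorem not_int_of {q : ℚ} {k : ℤ} (h : (D : ℚ) * q = k) (hk : (k : ZMod D) ≠ 0) (n : ℤ) :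
    q ≠ n := by
  rintro rfl
  apply hk
  have h1 : (k : ℚ) = ((D * n : ℤ) : ℚ) := by
    rw [← h]
    push_cast
    rfl
  have h2 : k = D * n := by exact_mod_cast h1
  rw [h2]
  push_cast
  rw [ZMod.natCast_self, zero_mul]

theorem ne_zero_of {q : ℚ} {k : ℤ} (h : (D : ℚ) * q = k) (hq : ∀ n : ℤ, q ≠ n) :
    (k : ZMod D) ≠ 0 := by
  intro h0
  rw [ZMod.intCast_zmod_eq_zero_iff_dvd] at h0
  obtain ⟨n, rfl⟩ := h0
  apply hq n
  have hD : (D : ℚ) ≠ 0 := by exact_mod_cast NeZero.ne D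
  have h1 : (D : ℚ) * q = D * n := by
    rw [h]
    push_cast
    rfl
  exact mul_left_cancel₀ hD h1

theorem gamma_eq {q : ℚ} {k : ℤ} (h : (D : ℚ) * q = k) (hk : (k : ZMod D) ≠ 0) :
    Complex.Gamma (q : ℂ) ≠ 0 ∧ lg (Complex.Gamma (q : ℂ)) = lg (G D (k : ZMod D)) := by
  have hq := not_int_of h hk
  refine ⟨Complex.Gamma_ne_zero fun m => ?_, ?_⟩
  · have h1 := rat_not_int hq 0 m
    simpa using h1
  · have h1 : ∀ n : ℤ, Int.fract q ≠ n := by
      intro n hn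
      apply hq (n + ⌊q⌋)
      rw [Int.cast_add, ← hn, Int.fract_add_floor]
    have h2 := lg_gamma_add h1 ⌊q⌋
    have h3 : ((Int.fract q : ℚ) : ℂ) + (⌊q⌋ : ℤ) = (q : ℂ) := by
      have h4 : Int.fract q + ⌊q⌋ = q := Int.fract_add_floor q
      have h5 := congrArg (fun x : ℚ => (x : ℂ)) h4
      push_cast at h5
      exact h5
    rw [h3] at h2
    rw [h2]
    unfold G
    rw [fract_eq h]
    push_cast
    rfl

variable {r : ℕ}

theorem sum_gv_eq_zero {x : Fin r → ℚ} {k : Fin r → ℤ} (h : ∀ i, (D : ℚ) * x i = k i)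
    (hk : ∀ i, ((k i : ℤ) : ZMod D) ≠ 0) (halg : AlgebraicMultiple x) :
    ∑ i, gv D ((k i : ℤ) : ZMod D) = 0 := by
  obtain ⟨α, hα, hprod⟩ := halg
  have h1 : ∏ i, Complex.Gamma (x i : ℂ) = (α : ℂ) * ((Real.pi ^ ((r : ℝ) / 2) : ℝ) : ℂ) := by
    rw [← Complex.ofReal_mul, ← hprod]
    push_cast
    refine Finset.prod_congr rfl fun i _ => ?_
    rw [← Complex.Gamma_ofReal]
    congr 1
  have h2 : (∏ i, Complex.Gamma (x i : ℂ)) ^ 2 = (α : ℂ) ^ 2 * (Real.pi : ℂ) ^ r := by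
    rw [h1, mul_pow]
    congr 1
    rw [← Complex.ofReal_pow, ← Complex.ofReal_pow]
    congr 1
    rw [← Real.rpow_natCast, ← Real.rpow_mul Real.pi_pos.le]
    push_cast
    rw [div_mul_cancel₀ _ (two_ne_zero), Real.rpow_natCast]
  have hne : (∏ i, Complex.Gamma (x i : ℂ)) ≠ 0 :=
    Finset.prod_ne_zero_iff.2 fun i _ => (gamma_eq (h i) (hk i)).1
  have hα0 : (α : ℂ) ≠ 0 := by
    intro h0
    rw [h0, zero_mul] at h1
    exact hne h1
  have hα' : IsAlgebraic ℚ (α : ℂ) := hα.algebraMap (A := ℂ)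
  have h3 := congrArg lg h2
  rw [lg_pow hne, lg_mul (pow_ne_zero 2 hα0) (pow_ne_zero r pi_ne), lg_pow hα0, lg_alg hα0 hα',
    smul_zero, zero_add, lg_pow pi_ne, lg_prod _ _ (fun i _ => (gamma_eq (h i) (hk i)).1)] at h3
  have h4 : ∑ i, gv D ((k i : ℤ) : ZMod D) =
      (2 : ℕ) • (∑ i, lg (Complex.Gamma (x i : ℂ))) - r • lg (Real.pi : ℂ) := by
    rw [Finset.smul_sum]
    have h5 : r • lg (Real.pi : ℂ) = ∑ _i : Fin r, lg (Real.pi : ℂ) := by
      rw [Finset.sum_const, Finset.card_univ, Fintype.card_fin]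
    rw [h5, ← Finset.sum_sub_distrib]
    refine Finset.sum_congr rfl fun i _ => ?_
    rw [gv_eq (hk i), (gamma_eq (h i) (hk i)).2]
  rw [h4, h3, sub_self]

theorem excess_eq' (a : Fin r → ℚ) (k : Fin r → ℤ) (h : ∀ i, (D : ℚ) * a i = k i) (m : ℕ)
    (t : {t : ℕ // t.Coprime D}) :
    excessFun D a m t = -(1 / (2 * (D : ℚ))) *
      ((∑ i, sB (((t.1 : ℕ) : ZMod D) * (((m : ℕ) : ZMod D) * ((k i : ℤ) : ZMod D))) : ℤ) : ℚ) := by
  have hD : (D : ℚ) ≠ 0 := by exact_mod_cast NeZero.ne D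
  unfold excessFun
  rw [Int.cast_sum, Finset.mul_sum]
  refine Finset.sum_congr rfl fun i _ => ?_
  have h1 : (D : ℚ) * (((t.1 * m : ℕ) : ℚ) * a i) = (((t.1 * m : ℕ) : ℤ) * k i : ℤ) := by
    push_cast
    rw [← h i]
    ring
  rw [fract_eq h1]
  have h2 : (((((t.1 * m : ℕ) : ℤ) * k i : ℤ)) : ZMod D) =
      ((t.1 : ℕ) : ZMod D) * (((m : ℕ) : ZMod D) * ((k i : ℤ) : ZMod D)) := by
    push_cast
    ring
  rw [h2]
  unfold sB
  push_cast
  field_simp
  ring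

end

end Pool.Agent.TH127.GA
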