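import Mathlib
import Pool.Agent.W537.PC.Main
import Pool.Agent.TH127.GA.Core
import Pool.Agent.TH127.GA.Trans

/-!
# The space spanned by the algebraic products
-/

set_option linter.unusedSectionVars false
set_option linter.unusedVariables false

namespace Pool.Agent.TH127.GA

open NumberField Pool.Agent.H204R3.CM Pool.Agent.W547.KB Pool.Agent.W537.PC Pool.Agent.W527.Vec

noncomputable section

theorem exists_setup (D : ℕ) [NeZero D] (hD : 2 < D) :
    ∃ (L : Type) (_ : Field L) (_ : NumberField L) (_ : IsCMField L) (_ : IsGalois ℚ L)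
      (_ : IsCyclotomicExtension {D} ℚ L) (j : L →+* ℂ) (ζ : L), IsPrimitiveRoot ζ D ∧
      j ζ = ZMod.stdAddChar (1 : ZMod D) ∧ ∀ σ τ : L ≃ₐ[ℚ] L, σ * τ = τ * σ := by
  classical
  let L := CyclotomicField D ℚ
  have hDq : NeZero ((D : ℕ) : ℚ) := ⟨by exact_mod_cast NeZero.ne D⟩
  have hcyc : IsCyclotomicExtension {D} ℚ L := CyclotomicField.isCyclotomicExtension D ℚ
  have hcm : IsCMField L := IsCyclotomicExtension.Rat.isCMField L (S := {D}) ⟨D, rfl, hD⟩
  have hgal : IsGalois ℚ L := IsCyclotomicExtension.isGalois {D} ℚ L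
  have hcomm : ∀ σ τ : L ≃ₐ[ℚ] L, σ * τ = τ * σ := by
    intro σ τ
    apply (IsCyclotomicExtension.Rat.galEquivZMod D L).injective
    rw [map_mul, map_mul, mul_comm]
  obtain ⟨j⟩ : Nonempty (L →+* ℂ) := inferInstance
  have h1 : IsPrimitiveRoot (ZMod.stdAddChar (1 : ZMod D) : ℂ) D := by
    have h2 := ZMod.stdAddChar_coe (N := D) 1
    rw [Int.cast_one] at h2
    rw [h2]
    have h3 := Complex.isPrimitiveRoot_exp D (NeZero.ne D)
    have h4 : (2 * Real.pi * Complex.I * ((1 : ℤ) : ℂ) / D : ℂ) =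
        2 * Real.pi * Complex.I / D := by
      push_cast
      ring
    rw [h4]
    exact h3
  have h0 := IsCyclotomicExtension.zeta_spec D ℚ L
  have h0j : IsPrimitiveRoot (j (IsCyclotomicExtension.zeta D ℚ L)) D :=
    h0.map_of_injective j.injective
  obtain ⟨i, hi, hi'⟩ := h0j.eq_pow_of_pow_eq_one h1.pow_eq_one
  refine ⟨L, inferInstance, inferInstance, hcm, hgal, hcyc, j,
    (IsCyclotomicExtension.zeta D ℚ L) ^ i, ?_, ?_, hcomm⟩
  · refine IsPrimitiveRoot.of_map_of_injective (f := j) ?_ j.injective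
    rw [map_pow, hi']
    exact h1
  · rw [map_pow, hi']

variable {D : ℕ} [NeZero D] {r : ℕ}

theorem sB_small (hD : D ≤ 2) {x : ZMod D} (hx : x ≠ 0) : sB x = 0 := by
  have h1 := val_pos hx
  have h2 := ZMod.val_lt x
  unfold sB
  omega

theorem isUnit_cast {m : ℕ} (hm : m.Coprime D) : IsUnit ((m : ℕ) : ZMod D) :=
  (ZMod.isUnit_iff_coprime m D).2 hm

theorem unit_mul_ne {u x : ZMod D} (hu : IsUnit u) (hx : x ≠ 0) : u * x ≠ 0 := by
  intro h
  exact hx (hu.mul_right_eq_zero.1 h)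

theorem excess_small (hD : D ≤ 2) (a : Fin r → ℚ) (k : Fin r → ℤ)
    (h : ∀ i, (D : ℚ) * a i = k i) (hk : ∀ i, ((k i : ℤ) : ZMod D) ≠ 0) {m : ℕ}
    (hm : m.Coprime D) : excessFun D a m = 0 := by
  funext t
  rw [excess_eq' a k h]
  have h1 : ∑ i, sB (((t.1 : ℕ) : ZMod D) * (((m : ℕ) : ZMod D) * ((k i : ℤ) : ZMod D))) = 0 :=
    Finset.sum_eq_zero fun i _ => sB_small hD
      (unit_mul_ne (isUnit_cast t.2) (unit_mul_ne (isUnit_cast hm) (hk i)))
  rw [h1, Int.cast_zero, mul_zero]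
  rfl

theorem exists_den {K : Type*} [Fintype K] (q : K → ℚ) :
    ∃ (N : ℕ) (Q : K → ℤ), 0 < N ∧ ∀ k, (N : ℚ) * q k = Q k := by
  classical
  refine ⟨∏ k, (q k).den, fun k => (q k).num * ∏ l ∈ Finset.univ.erase k, ((q l).den : ℤ),
    Finset.prod_pos fun k _ => (q k).den_pos, fun k => ?_⟩
  have h1 : ((q k).den : ℚ) * ∏ l ∈ Finset.univ.erase k, ((q l).den : ℚ) =
      ∏ l, ((q l).den : ℚ) :=
    Finset.mul_prod_erase Finset.univ (fun l => ((q l).den : ℚ)) (Finset.mem_univ k)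
  push_cast
  rw [← h1]
  have h2 : (q k) * ((q k).den : ℚ) = (q k).num := Rat.mul_den_eq_num (q k)
  rw [← h2]
  ring

variable {P : PeriodSystem}

/-- **Small functions.** -/
theorem small_zero (hDel : P.Deligne) (hW : Wuestholz P) (hF : FermatPeriods P)
    (a : Fin r → ℚ) (k : Fin r → ℤ) (h : ∀ i, (D : ℚ) * a i = k i)
    (hk : ∀ i, ((k i : ℤ) : ZMod D) ≠ 0) {f : {t : ℕ // t.Coprime D} → ℚ}
    (hf : f ∈ algebraicSpan D a) (hval : ∀ t, f t = 0 ∨ f t = 1 ∨ f t = -1) : f = 0 := by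
  classical
  obtain ⟨n, q, g, hsum⟩ := Submodule.mem_span_set'.1 hf
  have hg : ∀ l, ∃ m : ℕ, m.Coprime D ∧ AlgebraicMultiple (fun i => (m : ℚ) * a i) ∧
      (g l : {t : ℕ // t.Coprime D} → ℚ) = excessFun D a m := fun l => (g l).2
  choose m hm1 hm2 hm3 using hg
  rcases Nat.lt_or_ge 2 D with hD | hD
  swap
  · rw [← hsum]
    refine Finset.sum_eq_zero fun l _ => ?_
    rw [hm3, excess_small hD a k h hk (hm1 l), smul_zero]
  obtain ⟨L, _, _, _, _, _, j, ζ, hζ, hj, hcomm⟩ := exists_setup D hD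
  have hD0 : (D : ℚ) ≠ 0 := by exact_mod_cast NeZero.ne D
  have hft : ∀ t, f t = ∑ l, q l * (-(1 / (2 * (D : ℚ))) *
      ((∑ i, sB (((t.1 : ℕ) : ZMod D) * (((m l : ℕ) : ZMod D) * ((k i : ℤ) : ZMod D))) : ℤ) :
        ℚ)) := by
    intro t
    rw [← hsum, Finset.sum_apply]
    refine Finset.sum_congr rfl fun l _ => ?_
    rw [Pi.smul_apply, hm3, excess_eq' a k h, smul_eq_mul]
  obtain ⟨N0, Q, hN0, hQ⟩ := exists_den q
  have hτ : ∀ l, ∃ τ : L ≃ₐ[ℚ] L, cl D L τ = ((m l : ℕ) : ZMod D) := fun l =>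
    exists_cl (isUnit_cast (hm1 l))
  choose τ hτ using hτ
  let ts : (L ≃ₐ[ℚ] L) → {t : ℕ // t.Coprime D} := fun σ =>
    ⟨(cl D L σ).val, ZMod.val_coe_unit_coprime _⟩
  have hts : ∀ σ, (((ts σ).1 : ℕ) : ZMod D) = cl D L σ := fun σ => ZMod.natCast_zmod_val _
  have hint : ∀ σ, ∃ z : ℤ, (z : ℚ) = f (ts σ) ∧ (z = 0 ∨ z = 1 ∨ z = -1) := by
    intro σ
    rcases hval (ts σ) with h1 | h1 | h1
    · exact ⟨0, by rw [h1]; norm_num, Or.inl rfl⟩
    · exact ⟨1, by rw [h1]; norm_num, Or.inr (Or.inl rfl)⟩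
    · exact ⟨-1, by rw [h1]; norm_num, Or.inr (Or.inr rfl)⟩
  choose z hz1 hz2 using hint
  have hN : 0 < 2 * D * N0 := Nat.mul_pos (Nat.mul_pos two_pos (by omega)) hN0
  have hcore := core hD hζ hj hDel hW hF (fun i => ((k i : ℤ) : ZMod D)) hk
    (fun σ => ∑ l, if σ = τ l then - Q l else 0)
    (by
      intro σ hσ
      obtain ⟨l, -, hl⟩ := Finset.exists_ne_zero_of_sum_ne_zero hσ
      have h1 : σ = τ l := by
        by_contra h2
        rw [if_neg h2] at hl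
        exact hl rfl
      rw [h1, hτ]
      have h2 := sum_gv_eq_zero (D := D) (x := fun i => (m l : ℚ) * a i)
        (k := fun i => (m l : ℤ) * k i) (fun i => by
          push_cast
          rw [← h i]
          ring) (fun i => by
          push_cast
          exact unit_mul_ne (isUnit_cast (hm1 l)) (hk i)) (hm2 l)
      push_cast at h2
      exact h2) z hN hz2 (by
      intro σ
      have h1 : ((∑ τ' : L ≃ₐ[ℚ] L, (∑ l, if τ' = τ l then - Q l else 0) *
          ∑ i, sB (cl D L σ * (cl D L τ' * ((k i : ℤ) : ZMod D))) : ℤ) : ℚ) =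
          ((2 * D * N0 : ℕ) : ℚ) * z σ := by
        rw [hz1, hft]
        have h2 : (∑ τ' : L ≃ₐ[ℚ] L, (∑ l, if τ' = τ l then - Q l else 0) *
            ∑ i, sB (cl D L σ * (cl D L τ' * ((k i : ℤ) : ZMod D)))) =
            ∑ l, (- Q l) * ∑ i, sB (cl D L σ * (((m l : ℕ) : ZMod D) *
              ((k i : ℤ) : ZMod D))) := by
          simp only [Finset.sum_mul]
          rw [Finset.sum_comm]
          refine Finset.sum_congr rfl fun l _ => ?_
          rw [Finset.sum_eq_single (τ l)]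
          · rw [if_pos rfl, hτ]
          · intro τ' _ hne
            rw [if_neg hne, zero_mul]
          · intro h3
            exact absurd (Finset.mem_univ _) h3
        rw [h2, Int.cast_sum, Finset.mul_sum]
        refine Finset.sum_congr rfl fun l _ => ?_
        rw [Int.cast_mul, Int.cast_neg, ← hQ l, hts σ]
        push_cast
        field_simp
      exact_mod_cast h1)
  funext t
  obtain ⟨σ, hσ⟩ := exists_cl (L := L) (isUnit_cast t.2)
  have h1 : f t = f (ts σ) := by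
    rw [hft, hft, hts, hσ]
  rw [h1, ← hz1, congrFun hcore σ]
  norm_num

theorem cl_injective {L : Type} [Field L] [NumberField L] [IsCyclotomicExtension {D} ℚ L]
    {σ τ : L ≃ₐ[ℚ] L} (h : cl D L σ = cl D L τ) : σ = τ :=
  (IsCyclotomicExtension.Rat.galEquivZMod D L).injective (Units.ext h)

/-- The functions of the span are odd functions of the class modulo `D`. -/
theorem span_form (a : Fin r → ℚ) (k : Fin r → ℤ) (h : ∀ i, (D : ℚ) * a i = k i)
    (hk : ∀ i, ((k i : ℤ) : ZMod D) ≠ 0) {f : {t : ℕ // t.Coprime D} → ℚ}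
    (hf : f ∈ algebraicSpan D a) : ∃ g : ZMod D → ℚ,
      (∀ t : {t : ℕ // t.Coprime D}, f t = g ((t.1 : ℕ) : ZMod D)) ∧
      ∀ u, IsUnit u → g (-u) = - g u := by
  unfold algebraicSpan at hf
  induction hf using Submodule.span_induction with
  | mem f hf =>
    obtain ⟨m, hm, -, rfl⟩ := hf
    refine ⟨fun u => -(1 / (2 * (D : ℚ))) *
      ((∑ i, sB (u * (((m : ℕ) : ZMod D) * ((k i : ℤ) : ZMod D))) : ℤ) : ℚ),
      fun t => excess_eq' a k h m t, fun u hu => ?_⟩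
    have h1 : ∑ i, sB (-u * (((m : ℕ) : ZMod D) * ((k i : ℤ) : ZMod D))) =
        - ∑ i, sB (u * (((m : ℕ) : ZMod D) * ((k i : ℤ) : ZMod D))) := by
      rw [← Finset.sum_neg_distrib]
      refine Finset.sum_congr rfl fun i _ => ?_
      rw [neg_mul, sB_neg (unit_mul_ne hu (unit_mul_ne (isUnit_cast hm) (hk i)))]
    change -(1 / (2 * (D : ℚ))) * ((∑ i, sB (-u * (((m : ℕ) : ZMod D) *
      ((k i : ℤ) : ZMod D))) : ℤ) : ℚ) = _
    rw [h1]
    push_cast
    ring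
  | zero => exact ⟨0, fun t => rfl, fun u _ => neg_zero.symm⟩
  | add f f' _ _ ih ih' =>
    obtain ⟨g, h1, h2⟩ := ih
    obtain ⟨g', h1', h2'⟩ := ih'
    refine ⟨g + g', fun t => ?_, fun u hu => ?_⟩
    · rw [Pi.add_apply, h1, h1']
      rfl
    · rw [Pi.add_apply, Pi.add_apply, h2 u hu, h2' u hu, neg_add]
  | smul q f _ ih =>
    obtain ⟨g, h1, h2⟩ := ih
    refine ⟨q • g, fun t => ?_, fun u hu => ?_⟩
    · rw [Pi.smul_apply, h1]
      rfl
    · rw [Pi.smul_apply, Pi.smul_apply, h2 u hu, smul_neg]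

theorem span_bot (hD : D ≤ 2) (a : Fin r → ℚ) (k : Fin r → ℤ)
    (h : ∀ i, (D : ℚ) * a i = k i) (hk : ∀ i, ((k i : ℤ) : ZMod D) ≠ 0) :
    algebraicSpan D a = ⊥ := by
  rw [eq_bot_iff]
  refine Submodule.span_le.2 ?_
  rintro f ⟨m, hm, -, rfl⟩
  rw [excess_small hD a k h hk hm]
  exact Submodule.zero_mem _

theorem cop_mul {t m : ℕ} (ht : t.Coprime D) (hm : m.Coprime D) : (t * m).Coprime D :=
  Nat.Coprime.mul_left ht hm

/-- **Stable subspaces.** -/
theorem stable_zero (hDel : P.Deligne) (hW : Wuestholz P) (hF : FermatPeriods P)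
    (a : Fin r → ℚ) (k : Fin r → ℤ) (h : ∀ i, (D : ℚ) * a i = k i)
    (hk : ∀ i, ((k i : ℤ) : ZMod D) ≠ 0)
    (V : Submodule ℚ ({t : ℕ // t.Coprime D} → ℚ)) (hV : V ≤ algebraicSpan D a)
    (hst : ∀ f ∈ V, ∀ (m : ℕ) (hm : m.Coprime D),
      (fun t : {t : ℕ // t.Coprime D} => f ⟨t.1 * m, cop_mul t.2 hm⟩) ∈ V) : V = ⊥ := by
  classical
  rcases Nat.lt_or_ge 2 D with hD | hD
  swap
  · rw [eq_bot_iff, ← span_bot hD a k h hk]
    exact hV
  obtain ⟨L, _, _, _, _, _, j, ζ, hζ, hj, hcomm⟩ := exists_setup D hD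
  rw [eq_bot_iff]
  intro f hf
  rw [Submodule.mem_bot]
  obtain ⟨g, hg1, hg2⟩ := span_form a k h hk (hV hf)
  obtain ⟨N1, B, hN1, hB⟩ := exists_den (fun σ : L ≃ₐ[ℚ] L => g (cl D L σ))
  have hN1' : (N1 : ℚ) ≠ 0 := by exact_mod_cast hN1.ne'
  have hodd : ∀ σ, B (cc L * σ) = - B σ := by
    intro σ
    have h1 : (B (cc L * σ) : ℚ) = - B σ := by
      rw [← hB, ← hB, cl_mul, cl_cc hζ hj, neg_one_mul, hg2 _ (cl_isUnit σ)]
      ring
    exact_mod_cast h1
  by_cases hB0 : B = 0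
  · funext t
    obtain ⟨u, hu⟩ := exists_cl (L := L) (isUnit_cast t.2)
    have h1 := hB u
    rw [hB0, hu, ← hg1] at h1
    have h2 : (N1 : ℚ) * f t = 0 := by
      rw [h1]
      simp
    rcases mul_eq_zero.1 h2 with h3 | h3
    · exact absurd h3 hN1'
    · exact h3
  exfalso
  obtain ⟨n, N, h0, hN, hh0, hval, -, hrel⟩ := exists_small' hcomm (cc L) B hodd hB0
  have hσ : ∀ t : {t : ℕ // t.Coprime D}, ∃ σ : L ≃ₐ[ℚ] L, cl D L σ = ((t.1 : ℕ) : ZMod D) :=
    fun t => exists_cl (isUnit_cast t.2)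
  choose s hs using hσ
  let F : {t : ℕ // t.Coprime D} → ℚ := fun t => (h0 (s t) : ℚ)
  have hN0 : (N : ℚ) ≠ 0 := by exact_mod_cast hN.ne'
  let ts : (L ≃ₐ[ℚ] L) → {t : ℕ // t.Coprime D} := fun σ =>
    ⟨(cl D L σ).val, ZMod.val_coe_unit_coprime _⟩
  have hts : ∀ σ, (((ts σ).1 : ℕ) : ZMod D) = cl D L σ := fun σ => ZMod.natCast_zmod_val _
  have hFs : F = ∑ u : L ≃ₐ[ℚ] L, ((n u * N1 : ℚ) / N) •
      (fun t : {t : ℕ // t.Coprime D} => f ⟨t.1 * (ts u).1, cop_mul t.2 (ts u).2⟩) := by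
    funext t
    rw [Finset.sum_apply]
    have h1 : ∀ u : L ≃ₐ[ℚ] L, (((n u * N1 : ℚ) / N) • (fun t : {t : ℕ // t.Coprime D} =>
        f ⟨t.1 * (ts u).1, cop_mul t.2 (ts u).2⟩)) t = (n u * B (u * s t) : ℚ) / N := by
      intro u
      rw [Pi.smul_apply, smul_eq_mul, hg1, ← hB]
      have h2 : (((t.1 * (ts u).1 : ℕ)) : ZMod D) = cl D L (u * s t) := by
        rw [Nat.cast_mul, hts, cl_mul, hs, mul_comm]
      rw [h2]
      ring
    rw [Finset.sum_congr rfl fun u _ => h1 u, ← Finset.sum_div]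
    have h2 : (∑ u, (n u * B (u * s t) : ℚ)) = N * h0 (s t) := by
      exact_mod_cast hrel (s t)
    rw [h2, mul_div_cancel_left₀ _ hN0]
  have hFV : F ∈ V := by
    rw [hFs]
    exact Submodule.sum_mem _ fun u _ => Submodule.smul_mem _ _ (hst f hf _ (ts u).2)
  have hF0 := small_zero hDel hW hF a k h hk (hV hFV) (fun t => by
    rcases hval (s t) with h1 | h1 | h1
    · left
      change (h0 (s t) : ℚ) = 0
      rw [h1, Int.cast_zero]
    · right
      left
      change (h0 (s t) : ℚ) = 1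
      rw [h1, Int.cast_one]
    · right
      right
      change (h0 (s t) : ℚ) = -1
      rw [h1]
      norm_num)
  apply hh0
  funext σ
  have h1 : s (ts σ) = σ := cl_injective (D := D) (by rw [hs, hts])
  have h2 : (h0 (s (ts σ)) : ℚ) = 0 := congrFun hF0 (ts σ)
  rw [h1] at h2
  exact_mod_cast h2

end

end Pool.Agent.TH127.GA
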