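import Mathlib
import Pool.Agent.TH127.GA.Main

/-!
# Conjugate products of gamma values
-/

set_option linter.unusedSectionVars false
set_option linter.unusedVariables false

namespace Pool.Agent.TH127.GA

open NumberField Pool.Agent.H204R3.CM Pool.Agent.W547.KB Pool.Agent.W537.PC Pool.Agent.W527.Vec

noncomputable section

variable {D : ℕ} [NeZero D] {r : ℕ} {P : PeriodSystem}

theorem excess_congr (a : Fin r → ℚ) (k : Fin r → ℤ) (h : ∀ i, (D : ℚ) * a i = k i) {m m' : ℕ}
    (hm : ((m : ℕ) : ZMod D) = ((m' : ℕ) : ZMod D)) : excessFun D a m = excessFun D a m' := by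
  funext t
  rw [excess_eq' a k h, excess_eq' a k h, hm]

theorem excess_opp (a : Fin r → ℚ) (k : Fin r → ℤ) (h : ∀ i, (D : ℚ) * a i = k i)
    (hk : ∀ i, ((k i : ℤ) : ZMod D) ≠ 0) {m m' : ℕ} (hc : m'.Coprime D)
    (hm : ((m : ℕ) : ZMod D) = -((m' : ℕ) : ZMod D)) :
    excessFun D a m = - excessFun D a m' := by
  funext t
  rw [Pi.neg_apply, excess_eq' a k h, excess_eq' a k h, hm]
  have h1 : ∑ i, sB (((t.1 : ℕ) : ZMod D) * (-((m' : ℕ) : ZMod D) * ((k i : ℤ) : ZMod D))) =
      - ∑ i, sB (((t.1 : ℕ) : ZMod D) * (((m' : ℕ) : ZMod D) * ((k i : ℤ) : ZMod D))) := by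
    rw [← Finset.sum_neg_distrib]
    refine Finset.sum_congr rfl fun i _ => ?_
    rw [neg_mul, mul_neg, sB_neg (unit_mul_ne (isUnit_cast t.2) (unit_mul_ne (isUnit_cast hc)
      (hk i)))]
  rw [h1]
  push_cast
  ring

theorem sum_of_excess {a : Fin r → ℚ} {m : ℕ} (h : excessFun D a m = 0) :
    ∑ i, Int.fract ((m : ℚ) * a i) = (r : ℚ) / 2 := by
  have h1 := congrFun h ⟨1, Nat.coprime_one_left D⟩
  unfold excessFun at h1
  rw [Finset.sum_sub_distrib, Finset.sum_const, Finset.card_univ, Fintype.card_fin, nsmul_eq_mul,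
    Pi.zero_apply] at h1
  simp only [one_mul] at h1
  linarith

theorem algebraicMultiple_one {a : Fin r → ℚ} (h : AlgebraicMultiple a) :
    excessFun D a 1 ∈ algebraicSpan D a := by
  refine Submodule.subset_span ⟨1, Nat.coprime_one_left D, ?_, rfl⟩
  have h1 : (fun i => ((1 : ℕ) : ℚ) * a i) = a := by
    funext i
    rw [Nat.cast_one, one_mul]
  rw [h1]
  exact h

theorem excess_value {a : Fin r → ℚ} (t : {t : ℕ // t.Coprime D}) :
    excessFun D a 1 t = ∑ i, Int.fract ((t.1 : ℚ) * a i) - (r : ℚ) / 2 := by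
  unfold excessFun
  rw [Finset.sum_sub_distrib, Finset.sum_const, Finset.card_univ, Fintype.card_fin, nsmul_eq_mul,
    mul_one]
  ring

/-- All conjugate products are algebraic. -/
theorem all_conjugates (hDel : P.Deligne) (hW : Wuestholz P) (hF : FermatPeriods P)
    (a : Fin r → ℚ) (k : Fin r → ℤ) (h : ∀ i, (D : ℚ) * a i = k i)
    (hk : ∀ i, ((k i : ℤ) : ZMod D) ≠ 0)
    (hall : ∀ m : ℕ, m.Coprime D → 2 * m ≤ D → AlgebraicMultiple (fun i => (m : ℚ) * a i))
    {m : ℕ} (hm : m.Coprime D) : excessFun D a m = 0 := by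
  classical
  have hmem : ∀ m : ℕ, m.Coprime D → excessFun D a m ∈ algebraicSpan D a := by
    intro m hm
    have hm1 : (m % D).Coprime D := by
      have h1 := ZMod.val_coe_unit_coprime (ZMod.unitOfCoprime m hm)
      rwa [ZMod.coe_unitOfCoprime, ZMod.val_natCast] at h1
    have hlt : m % D < D := Nat.mod_lt _ (Nat.pos_of_ne_zero (NeZero.ne D))
    have hcast : ((m : ℕ) : ZMod D) = ((m % D : ℕ) : ZMod D) := (ZMod.natCast_mod m D).symm
    rw [excess_congr a k h hcast]
    rcases Nat.lt_or_ge D (2 * (m % D)) with h2 | h2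
    · have hm2 : (D - m % D).Coprime D :=
        (Nat.coprime_self_sub_left hlt.le).2 hm1
      have h3 : ((m % D : ℕ) : ZMod D) = -((D - m % D : ℕ) : ZMod D) := by
        rw [Nat.cast_sub hlt.le, ZMod.natCast_self, zero_sub, neg_neg]
      rw [excess_opp a k h hk hm2 h3]
      exact Submodule.neg_mem _ (Submodule.subset_span ⟨D - m % D, hm2, hall _ hm2 (by omega),
        rfl⟩)
    · exact Submodule.subset_span ⟨m % D, hm1, hall _ hm1 h2, rfl⟩
  let V : Submodule ℚ ({t : ℕ // t.Coprime D} → ℚ) :=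
    Submodule.span ℚ {f | ∃ m : ℕ, m.Coprime D ∧ f = excessFun D a m}
  have hV : V ≤ algebraicSpan D a := by
    refine Submodule.span_le.2 ?_
    rintro f ⟨m, hm, rfl⟩
    exact hmem m hm
  have hst : ∀ f ∈ V, ∀ (m : ℕ) (hm : m.Coprime D),
      (fun t : {t : ℕ // t.Coprime D} => f ⟨t.1 * m, cop_mul t.2 hm⟩) ∈ V := by
    intro f hf m hm
    let T : ({t : ℕ // t.Coprime D} → ℚ) →ₗ[ℚ] ({t : ℕ // t.Coprime D} → ℚ) :=
      { toFun := fun f t => f ⟨t.1 * m, cop_mul t.2 hm⟩
        map_add' := fun _ _ => rfl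
        map_smul' := fun _ _ => rfl }
    have h1 : V ≤ V.comap T := by
      refine Submodule.span_le.2 ?_
      rintro f ⟨m', hm', rfl⟩
      refine Submodule.subset_span ⟨m * m', cop_mul hm hm', ?_⟩
      funext t
      change ∑ i, (Int.fract (((t.1 * m * m' : ℕ) : ℚ) * a i) - 1 / 2) =
        ∑ i, (Int.fract (((t.1 * (m * m') : ℕ) : ℚ) * a i) - 1 / 2)
      rw [mul_assoc]
    exact h1 hf
  have hbot := stable_zero hDel hW hF a k h hk V hV hst
  have h1 : excessFun D a m ∈ V := Submodule.subset_span ⟨m, hm, rfl⟩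
  rw [hbot] at h1
  exact (Submodule.mem_bot ℚ).1 h1

end

end Pool.Agent.TH127.GA
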